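import Pool.Agent.W896.MO.S3Out

/-!
# 3SUM with outputs: quadratic time for machines with small memory and a stack

The model: families of (non-uniform) programs, one of which is chosen at random; a program has `s`
nodes (a memory of `log s` bits) and a stack (pushdown store) of unlimited height; it reads the
numbers of the input in any order, adaptively and repeatedly (a number is read in one step), and
writes the outputs in any order; all other steps are free. So all word-RAM programs (also randomised
and non-uniform ones) whose memory, apart from a stack, consists of `n ^ o(1)` bits are contained in
the model.

The task: given `n` different integers in `[-n ^ 4, n ^ 4]`, find out for each of them whether it is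
in a solution, i.e. whether its sum with two other ones is zero. We show that a probability
`2 ^ (- π)` of being right on every input requires a number `T` of reads and writes with
`T (log s + π + 1) ≥ c n ^ 2`. So with a memory of `n ^ o(1)` bits and a stack the time is
`n ^ (2 - o(1))`: for such programs, and for this version of the problem, the hypothesis of the page
is a theorem.

Proof. The numbers `a_i = L + y_i h + i`, `c_i = 3 L - i`, `b_v = -4 L - v h` (`i < h`, `v < 2 h`)
are such that `b_v` is in a solution if and only if `v` is a value of `y`. It remains to find the
range of a function from `h` elements to `2 h` elements. A computation is cut into pieces of `h / 32`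
reads and writes each, in spite of the stack (`Pool.Agent.W896.MO.pieces`, `union_bound`); such a
piece finds `k` numbers outside the range of a random function only with probability
`2 ^ (- c k)`.
-/

set_option autoImplicit false

namespace Pool.Agent.Results.MP_8f87b2_lc.AllNumbersStack

open Pool.Agent.W896.MO

/-- `ValidS x` says that the `x i` are `n` different integers in `[-n ^ 4, n ^ 4]`, and `s3Out x i` is
`1` if there are different `j, k`, both different from `i`, with `x i + x j + x k = 0`, and `0`
otherwise. Let `P r` (`r` in a finite nonempty set) be programs with a stack and at most `s` nodes
each, such that for every valid input at least a `2 ^ (- π)` fraction of them computes all `n`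
outputs with at most `T` reads and writes. Then `n ^ 2 ≤ 2 ^ 24 T (log₂ s + π + 1)`. -/
theorem result (n T π s : ℕ) (R : Type) [Fintype R] [Nonempty R]
    (P : R → Prog (Fin n) (Fin n) ℤ)
    (hs : ∀ r, Fintype.card (P r).State ≤ s)
    (hc : ∀ x : Fin n → ℤ, ValidS x →
      Nat.card R ≤ 2 ^ π * Nat.card {r // (P r).Computes x (s3Out x) T}) :
    (n : ℝ) ^ 2 ≤ 2 ^ 24 * T * (Real.logb 2 s + π + 1) :=
  s3_out n T π s R P hs hc

end Pool.Agent.Results.MP_8f87b2_lc.AllNumbersStack
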