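import Mathlib
import Pool.Agent.W962.Generic.Model
import Pool.Agent.W962.Generic.MainV
import Pool.Agent.W962.Generic.Free
import Pool.Agent.W962.Generic.Sum3

/-!
# Integer 3SUM for algorithms that use the numbers through ring operations and equality tests
-/

set_option autoImplicit false

namespace Pool.Agent.Results.MP_8f87b2_lc.GenericRing

open Pool.Agent.W962.Generic MvPolynomial

/-- The list `x` is an instance of integer 3SUM. -/
structure IsInstance (n : ℕ) (x : Fin n → ℤ) : Prop where
  distinct : Function.Injective x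
  bound : ∀ i, |x i| ≤ (n : ℤ) ^ 4

/-- The instance is a yes-instance. -/
def HasSolution {n : ℕ} (x : Fin n → ℤ) : Prop :=
  ∃ i j k, i ≠ j ∧ j ≠ k ∧ i ≠ k ∧ x i + x j + x k = 0

/-- A linear form which has a nonzero value vanishes rarely. -/
theorem count_form {n : ℕ} (f : MvPolynomial (Fin n) ℤ) (hf : f.totalDegree ≤ 1)
    (y : Fin n → ℤ) (hy : eval y f ≠ 0) (V : Finset ℤ) :
    V.card * ((Fintype.piFinset fun _ : Fin n => V).filter fun x => eval x f = 0).card ≤
      (Fintype.piFinset fun _ : Fin n => V).card := by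
  have := schwartz_zippel f (fun h => hy (by rw [h, map_zero])) 1 hf V
  rwa [one_mul] at this

/-- The bound for algorithms with arbitrary parameters. -/
theorem key (n N d q K k : ℕ) (hq : 0 < q) (hqn : 100 * q ≤ n)
    (hk : N + 1 < 2 ^ (k + 1)) (hsize : 2 * q * (24 * ((N + 1) * (N + 1) * (2 * K + 1) * d)) ≤ n ^ 4)
    (Ω : Type) (p : PMF Ω) (A : Ω → RingAlgorithm (Fin n) d)
    (hA : ∀ x, IsInstance n x → (2 / 3 : ENNReal) ≤ p.toOuterMeasure
      {ω | (A ω).accepts q K N x = true ↔ HasSolution x}) :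
    (n / 3) ^ 2 ≤ 18 * (N + 1) * (d * k) ^ 2 := by
  set m := n / 3 with hm
  have hn : 100 ≤ n := by omega
  have hm0 : 0 < m := by omega
  have hmn : 3 * m ≤ n := by omega
  set r : ℕ := n ^ 4 / (2 * q) with hr
  have hr1 : 2 * q * r ≤ n ^ 4 := Nat.mul_div_le _ _
  have hr2 : n ^ 4 ≤ 2 * q * (2 * r + 1) := by
    have h1 : n ^ 4 < 2 * q * (r + 1) := by
      have := Nat.lt_mul_div_succ (n ^ 4) (b := 2 * q) (by omega)
      simpa [hr] using this
    refine h1.le.trans (Nat.mul_le_mul_left _ (by omega))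
  set V : Finset ℤ := (Finset.Icc (-(r : ℤ)) r).image (fun t => (q : ℤ) * t) with hV
  have hq0 : (q : ℤ) ≠ 0 := by exact_mod_cast hq.ne'
  have hVcard : V.card = 2 * r + 1 := by
    rw [hV, Finset.card_image_of_injective _ (mul_right_injective₀ hq0), Int.card_Icc]
    omega
  have hVn : ∀ t : ℕ, 2 * q * t ≤ n ^ 4 → t ≤ V.card := by
    intro t ht
    rw [hVcard]
    exact Nat.le_of_mul_le_mul_left (ht.trans hr2) (by omega)
  have hVq : ∀ s ∈ V, (q : ℤ) ∣ s := by
    intro s hs
    obtain ⟨t, -, rfl⟩ := Finset.mem_image.1 hs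
    exact Dvd.intro _ rfl
  have hVb : ∀ s ∈ V, |s| ≤ (q : ℤ) * r := by
    intro s hs
    obtain ⟨t, ht, rfl⟩ := Finset.mem_image.1 hs
    rw [abs_mul, abs_of_nonneg (by positivity : (0 : ℤ) ≤ q)]
    exact mul_le_mul_of_nonneg_left (abs_le.2 (Finset.mem_Icc.1 ht)) (by positivity)
  have hqr : 2 * ((q : ℤ) * r) ≤ (n : ℤ) ^ 4 := by
    have h' : ((2 * q * r : ℕ) : ℤ) ≤ ((n ^ 4 : ℕ) : ℤ) := by exact_mod_cast hr1
    push_cast at h'
    linarith
  have hqr0 : 0 ≤ (q : ℤ) * r := by positivity
  have d01 := fun T => Sum3.dir_ne (n := n) (m := m) hmn 0 1 (by decide) T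
  have d02 := fun T => Sum3.dir_ne (n := n) (m := m) hmn 0 2 (by decide) T
  have d12 := fun T => Sum3.dir_ne (n := n) (m := m) hmn 1 2 (by decide) T
  have hplant : ∀ (T : Fin 3 → Fin m) (x : Fin n → ℤ),
      plant (Sum3.dir hmn 0 T) (X (Sum3.dir hmn 1 T) + X (Sum3.dir hmn 2 T)) x =
        Function.update x (Sum3.dir hmn 0 T)
          (-(x (Sum3.dir hmn 1 T) + x (Sum3.dir hmn 2 T))) := by
    intro T x
    unfold plant
    congr 1
    simp
  set cube := Fintype.piFinset (fun _ : Fin n => V) with hcube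
  have hmain := mainV p A q K N V hVq (fun T : Fin 3 → Fin m => Sum3.dir hmn 0 T)
    (fun T => X (Sum3.dir hmn 1 T) + X (Sum3.dir hmn 2 T)) ?_ ?_
    HasSolution Function.Injective ?_ (2 * n ^ 3) ?_ ?_ (n ^ 2) ?_ ?_ ?_ ?_ ?_ ?_
  · obtain ⟨W, hW1, hW2, C', hC1, hC2⟩ := hmain
    have h1 := Sum3.cover hmn d k W (by omega) hW2 C' hC2
    have h2 : Fintype.card (Fin 3 → Fin m) = m ^ 3 := by
      rw [Fintype.card_fun, Fintype.card_fin, Fintype.card_fin]
    rw [h2] at hC1
    have h3 : m ^ 2 * m ≤ (18 * (N + 1) * (d * k) ^ 2) * m := by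
      calc m ^ 2 * m = m ^ 3 := by ring
        _ ≤ _ := hC1
        _ ≤ 6 * (W.card * (3 * (m * (d * k) ^ 2))) := Nat.mul_le_mul_left _ h1
        _ ≤ 6 * ((N + 1) * (3 * (m * (d * k) ^ 2))) := by gcongr
        _ = _ := by ring
    exact Nat.le_of_mul_le_mul_right h3 hm0
  · intro T
    refine (totalDegree_add _ _).trans (max_le ?_ ?_) <;> simp
  · intro T
    simp
  · intro x _ T
    refine ⟨_, _, _, (d01 T).symm, (d12 T).symm, (d02 T).symm, ?_⟩
    rw [hplant, Function.update_self, Function.update_of_ne (d01 T), Function.update_of_ne (d02 T)]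
    ring
  · -- few lists have a solution or equal members
    intro F hF
    let f3 : Fin n × Fin n × Fin n → MvPolynomial (Fin n) ℤ := fun t => X t.1 + X t.2.1 + X t.2.2
    let f2 : Fin n × Fin n → MvPolynomial (Fin n) ℤ := fun t => X t.1 - X t.2
    have hsub : F ⊆ ((Finset.univ : Finset (Fin n × Fin n × Fin n)).biUnion fun t =>
          cube.filter fun x => eval x (f3 t) = 0) ∪
        ((Finset.univ.filter fun t : Fin n × Fin n => t.1 ≠ t.2).biUnion fun t =>
          cube.filter fun x => eval x (f2 t) = 0) := by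
      intro x hx
      obtain ⟨hx1, hx2⟩ := hF x hx
      rcases hx2 with ⟨i, j, l, -, -, -, h⟩ | hx2
      · refine Finset.mem_union_left _ (Finset.mem_biUnion.2 ⟨(i, j, l), Finset.mem_univ _,
          Finset.mem_filter.2 ⟨hx1, ?_⟩⟩)
        simpa [f3] using h
      · rw [Function.Injective] at hx2
        push Not at hx2
        obtain ⟨i, j, h1, h2⟩ := hx2
        refine Finset.mem_union_right _ (Finset.mem_biUnion.2 ⟨(i, j),
          Finset.mem_filter.2 ⟨Finset.mem_univ _, h2⟩, Finset.mem_filter.2 ⟨hx1, ?_⟩⟩)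
        simp [f2, h1]
    have h3 : ∀ t, V.card * (cube.filter fun x => eval x (f3 t) = 0).card ≤ cube.card := by
      intro t
      refine count_form (f3 t) ?_ (fun _ => 1) ?_ V
      · refine (totalDegree_add _ _).trans (max_le ((totalDegree_add _ _).trans (max_le ?_ ?_)) ?_)
          <;> simp
      · simp [f3]
    have h2 : ∀ t ∈ (Finset.univ.filter fun t : Fin n × Fin n => t.1 ≠ t.2),
        V.card * (cube.filter fun x => eval x (f2 t) = 0).card ≤ cube.card := by
      intro t ht
      have hne := (Finset.mem_filter.1 ht).2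
      refine count_form (f2 t) ?_ (fun i => if i = t.1 then 1 else 0) ?_ V
      · refine (totalDegree_sub _ _).trans (max_le ?_ ?_) <;> simp
      · simp only [f2, map_sub, eval_X, if_true, if_neg hne.symm]
        norm_num
    have c3 : (Finset.univ : Finset (Fin n × Fin n × Fin n)).card = n ^ 3 := by
      rw [Finset.card_univ]; simp only [Fintype.card_prod, Fintype.card_fin]; ring
    have c2 : (Finset.univ.filter fun t : Fin n × Fin n => t.1 ≠ t.2).card ≤ n ^ 2 := by
      refine (Finset.card_filter_le _ _).trans ?_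
      rw [Finset.card_univ]; simp only [Fintype.card_prod, Fintype.card_fin]
      exact (sq n).ge
    calc V.card * F.card
        ≤ V.card * (∑ t : Fin n × Fin n × Fin n, (cube.filter fun x => eval x (f3 t) = 0).card +
          ∑ t ∈ Finset.univ.filter (fun t : Fin n × Fin n => t.1 ≠ t.2),
            (cube.filter fun x => eval x (f2 t) = 0).card) :=
          Nat.mul_le_mul_left _ ((Finset.card_le_card hsub).trans ((Finset.card_union_le _ _).trans
            (Nat.add_le_add Finset.card_biUnion_le Finset.card_biUnion_le)))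
      _ = ∑ t : Fin n × Fin n × Fin n,
            V.card * (cube.filter fun x => eval x (f3 t) = 0).card +
          ∑ t ∈ Finset.univ.filter (fun t : Fin n × Fin n => t.1 ≠ t.2),
            V.card * (cube.filter fun x => eval x (f2 t) = 0).card := by
          rw [Nat.mul_add, Finset.mul_sum, Finset.mul_sum]
      _ ≤ ∑ _t : Fin n × Fin n × Fin n, cube.card +
          ∑ t ∈ Finset.univ.filter (fun t : Fin n × Fin n => t.1 ≠ t.2), cube.card :=
          Nat.add_le_add (Finset.sum_le_sum fun t _ => h3 t) (Finset.sum_le_sum h2)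
      _ ≤ n ^ 3 * cube.card + n ^ 2 * cube.card := by
          rw [Finset.sum_const, Finset.sum_const, smul_eq_mul, smul_eq_mul, c3]
          gcongr
      _ ≤ n ^ 3 * cube.card + n ^ 3 * cube.card :=
          Nat.add_le_add le_rfl (Nat.mul_le_mul_right _
            (Nat.pow_le_pow_right (by omega) (by norm_num)))
      _ = 2 * n ^ 3 * cube.card := by ring
  · refine hVn _ ?_
    calc 2 * q * (24 * (2 * n ^ 3)) = (96 * q) * n ^ 3 := by ring
      _ ≤ n * n ^ 3 := Nat.mul_le_mul_right _ (by omega)
      _ = n ^ 4 := by ring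
  · -- planting rarely makes members equal
    intro T F hF
    let cx : Fin n → MvPolynomial (Fin n) ℤ := fun i => if i = Sum3.dir hmn 0 T then
      -(X (Sum3.dir hmn 1 T) + X (Sum3.dir hmn 2 T)) else X i
    have hcx : ∀ (x : Fin n → ℤ) i, eval x (cx i) =
        plant (Sum3.dir hmn 0 T) (X (Sum3.dir hmn 1 T) + X (Sum3.dir hmn 2 T)) x i := by
      intro x i
      rw [hplant]
      simp only [cx]
      by_cases hi : i = Sum3.dir hmn 0 T
      · subst hi
        rw [if_pos rfl, Function.update_self]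
        simp
      · rw [if_neg hi, Function.update_of_ne hi]
        simp
    have hcxd : ∀ i, (cx i).totalDegree ≤ 1 := by
      intro i
      simp only [cx]
      split_ifs
      · rw [totalDegree_neg]
        refine (totalDegree_add _ _).trans (max_le ?_ ?_) <;> simp
      · simp
    have hsub : F ⊆ (Finset.univ.filter fun t : Fin n × Fin n => t.1 ≠ t.2).biUnion fun t =>
          cube.filter fun x => eval x (cx t.1 - cx t.2) = 0 := by
      intro x hx
      obtain ⟨hx1, hx2⟩ := hF x hx
      rw [Function.Injective] at hx2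
      push Not at hx2
      obtain ⟨i, j, h1, h2⟩ := hx2
      refine Finset.mem_biUnion.2 ⟨(i, j),
          Finset.mem_filter.2 ⟨Finset.mem_univ _, h2⟩, Finset.mem_filter.2 ⟨hx1, ?_⟩⟩
      rw [map_sub, hcx, hcx, h1, sub_self]
    have h2 : ∀ t ∈ (Finset.univ.filter fun t : Fin n × Fin n => t.1 ≠ t.2),
        V.card * (cube.filter fun x => eval x (cx t.1 - cx t.2) = 0).card ≤ cube.card := by
      intro t ht
      have hne := (Finset.mem_filter.1 ht).2
      have hdeg : (cx t.1 - cx t.2).totalDegree ≤ 1 :=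
        (totalDegree_sub _ _).trans (max_le (hcxd _) (hcxd _))
      by_cases c1 : t.1 = Sum3.dir hmn 0 T
      · refine count_form _ hdeg (fun _ => 1) ?_ V
        rw [map_sub, hcx, hcx, hplant, c1, Function.update_self,
          Function.update_of_ne (fun h => hne (c1.trans h.symm))]
        norm_num
      · by_cases c2 : t.2 = Sum3.dir hmn 0 T
        · refine count_form _ hdeg (fun _ => 1) ?_ V
          rw [map_sub, hcx, hcx, hplant, c2, Function.update_self, Function.update_of_ne c1]
          norm_num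
        · refine count_form _ hdeg (fun i => if i = t.1 then 1 else 0) ?_ V
          rw [map_sub, hcx, hcx, hplant, Function.update_of_ne c1, Function.update_of_ne c2]
          rw [if_pos rfl, if_neg hne.symm]
          norm_num
    have c2 : (Finset.univ.filter fun t : Fin n × Fin n => t.1 ≠ t.2).card ≤ n ^ 2 := by
      refine (Finset.card_filter_le _ _).trans ?_
      rw [Finset.card_univ]; simp only [Fintype.card_prod, Fintype.card_fin]
      exact (sq n).ge
    calc V.card * F.card
        ≤ V.card * ∑ t ∈ Finset.univ.filter (fun t : Fin n × Fin n => t.1 ≠ t.2),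
            (cube.filter fun x => eval x (cx t.1 - cx t.2) = 0).card :=
          Nat.mul_le_mul_left _ ((Finset.card_le_card hsub).trans Finset.card_biUnion_le)
      _ = ∑ t ∈ Finset.univ.filter (fun t : Fin n × Fin n => t.1 ≠ t.2),
            V.card * (cube.filter fun x => eval x (cx t.1 - cx t.2) = 0).card := by
          rw [Finset.mul_sum]
      _ ≤ ∑ t ∈ Finset.univ.filter (fun t : Fin n × Fin n => t.1 ≠ t.2), cube.card :=
          Finset.sum_le_sum h2
      _ ≤ n ^ 2 * cube.card := by
          rw [Finset.sum_const, smul_eq_mul]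
          exact Nat.mul_le_mul_right _ c2
  · refine hVn _ ?_
    calc 2 * q * (24 * n ^ 2) = (48 * q) * n ^ 2 := by ring
      _ ≤ n * n ^ 2 := Nat.mul_le_mul_right _ (by omega)
      _ = n ^ 3 := by ring
      _ ≤ n ^ 4 := Nat.pow_le_pow_right (by omega) (by norm_num)
  · exact hVn _ hsize
  · rw [hVcard]; omega
  · intro x hx hval
    refine hA x ⟨hval, fun i => ?_⟩
    have := hVb _ (Fintype.mem_piFinset.1 hx i)
    linarith
  · intro x hx T hval
    refine hA _ ⟨hval, fun i => ?_⟩
    rw [hplant]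
    by_cases hi : i = Sum3.dir hmn 0 T
    · subst hi
      rw [Function.update_self, abs_neg]
      have h1 := hVb _ (Fintype.mem_piFinset.1 hx (Sum3.dir hmn 1 T))
      have h2 := hVb _ (Fintype.mem_piFinset.1 hx (Sum3.dir hmn 2 T))
      have := abs_add_le (x (Sum3.dir hmn 1 T)) (x (Sum3.dir hmn 2 T))
      linarith
    · rw [Function.update_of_ne hi]
      have := hVb _ (Fintype.mem_piFinset.1 hx i)
      linarith

/-! ### An algorithm -/

/-- An enumeration of the numbers and of the pairs. -/
noncomputable def en (n : ℕ) : Fin n ⊕ (Fin n × Fin n) ≃ Fin (n ^ 2 + n) :=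
  Fintype.equivFinOfCardEq (by
    simp only [Fintype.card_sum, Fintype.card_prod, Fintype.card_fin]; ring)

/-- The value for a number or a pair. -/
noncomputable def val {n : ℕ} : Fin n ⊕ (Fin n × Fin n) → MvPolynomial (Fin n) ℤ
  | Sum.inl k => -X k
  | Sum.inr z => X z.1 + X z.2

theorem val_degree {n : ℕ} (z : Fin n ⊕ (Fin n × Fin n)) : (val z).totalDegree ≤ 1 := by
  rcases z with k | z
  · simp only [val, totalDegree_neg]; simp
  · exact (totalDegree_add _ _).trans (max_le (by simp) (by simp))

/-- The list of the values. -/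
noncomputable def fl (n : ℕ) (t : ℕ) : MvPolynomial (Fin n) ℤ :=
  if ht : t < n ^ 2 + n then val ((en n).symm ⟨t, ht⟩) else 0

theorem fl_degree (n t : ℕ) : (fl n t).totalDegree ≤ 1 := by
  unfold fl
  split_ifs
  · exact val_degree _
  · simp

theorem fl_en (n : ℕ) (z : Fin n ⊕ (Fin n × Fin n)) : fl n (en n z).1 = val z := by
  unfold fl
  rw [dif_pos (en n z).2]
  simp

open Classical in
/-- Look for equal values. -/
noncomputable def outp (n : ℕ) (h : List (List (Option ℤ) × ℤ × Option ℤ)) : Bool :=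
  decide (∃ i j k : Fin n, i ≠ j ∧ j ≠ k ∧ i ≠ k ∧
    same h (en n (Sum.inr (i, j))).1 (en n (Sum.inl k)).1)

theorem outp_iff (n : ℕ) (h : List (List (Option ℤ) × ℤ × Option ℤ)) :
    outp n h = true ↔ ∃ i j k : Fin n, i ≠ j ∧ j ≠ k ∧ i ≠ k ∧
      same h (en n (Sum.inr (i, j))).1 (en n (Sum.inl k)).1 := by
  classical
  unfold outp
  rw [decide_eq_true_iff]

/-- Compute all the sums of two numbers and all the numbers `-x k`, and look for equal values. -/
noncomputable def pairsAlg (n : ℕ) : RingAlgorithm (Fin n) 1 :=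
  nonad (fl n) (fl_degree n) (outp n)

theorem pairsAlg_accepts (n q K : ℕ) (x : Fin n → ℤ) :
    (pairsAlg n).accepts q K (n ^ 2 + n) x = true ↔ HasSolution x := by
  have h1 : ∀ i j k : Fin n, same ((pairsAlg n).run q K x (n ^ 2 + n)).2
      (en n (Sum.inr (i, j))).1 (en n (Sum.inl k)).1 ↔ x i + x j + x k = 0 := by
    intro i j k
    rw [pairsAlg, same_iff _ _ _ _ _ _ _ _ _ (en n _).2 (en n _).2, fl_en, fl_en]
    simp only [val, map_add, map_neg, eval_X]
    omega
  unfold RingAlgorithm.accepts
  change outp n _ = true ↔ _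
  rw [outp_iff]
  unfold HasSolution
  refine exists_congr fun i => exists_congr fun j => exists_congr fun k => ?_
  rw [h1]

/-- **Integer 3SUM in the generic ring model.**

1. Let a randomised algorithm compute, adaptively, the values of `N` integer polynomials of degree
at most `d` in the numbers of the list, and let it learn the differences of all the pairs of
computed values which differ by at most `K` (in particular, which of the values are equal), the
residues of all the computed values modulo `q`, and those computed values whose absolute value is at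
most `K`.  If it decides integer 3SUM on lists of `n ≥ 100 q` distinct integers in
`[-n ^ 4, n ^ 4]` with error probability at most `1 / 3`, then
`n ^ 4 ≤ (3600 N (d ⌈log₂ n⌉) ^ 2) ^ 2 q (K + 1)`; so `N ≥ n ^ (2 - o(1))` if `q, K, d` are
`n ^ o(1)`.
2. There is such an algorithm, deterministic and always correct, with `d = 1` and
`N = n ^ 2 + n`. -/
theorem result :
    (∀ n N d q K : ℕ, 0 < q → 100 * q ≤ n →
      ∀ (Ω : Type) (p : PMF Ω) (A : Ω → RingAlgorithm (Fin n) d),
      (∀ x, IsInstance n x → (2 / 3 : ENNReal) ≤ p.toOuterMeasure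
        {ω | (A ω).accepts q K N x = true ↔ HasSolution x}) →
      n ^ 4 ≤ (3600 * N * (d * Nat.clog 2 n) ^ 2) ^ 2 * (q * (K + 1))) ∧
    (∀ n q K : ℕ, ∃ A : RingAlgorithm (Fin n) 1,
      ∀ x, IsInstance n x → (A.accepts q K (n ^ 2 + n) x = true ↔ HasSolution x)) := by
  refine ⟨?_, fun n q K => ⟨pairsAlg n, fun x _ => pairsAlg_accepts n q K x⟩⟩
  intro n N d q K hq hqn Ω p A hA
  have hm : n ^ 2 ≤ 25 * (n / 3) ^ 2 := by
    have h1 : n ≤ 5 * (n / 3) := by omega
    calc n ^ 2 ≤ (5 * (n / 3)) ^ 2 := Nat.pow_le_pow_left h1 2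
      _ = 25 * (n / 3) ^ 2 := by ring
  have hm1 : 0 < (n / 3) ^ 2 := pow_pos (by omega) 2
  rcases Nat.eq_zero_or_pos N with rfl | hNpos
  · exfalso
    have h2 := key n 0 0 q K 0 hq hqn (by norm_num) (by simp) Ω p
      (fun ω => ⟨fun _ => 0, fun _ => by simp, (A ω).output⟩) hA
    simp only [Nat.mul_zero, ne_eq, OfNat.ofNat_ne_zero, not_false_eq_true, zero_pow] at h2
    omega
  rcases Nat.eq_zero_or_pos d with rfl | hdpos
  · exfalso
    have h2 := key n N 0 q K N hq hqn Nat.lt_two_pow_self (by simp) Ω p A hA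
    simp only [Nat.zero_mul, ne_eq, OfNat.ofNat_ne_zero, not_false_eq_true, zero_pow,
      Nat.mul_zero] at h2
    omega
  have hclog : 1 ≤ Nat.clog 2 n := Nat.clog_pos (by norm_num) (by omega)
  set L := Nat.clog 2 n with hL
  have hN2 : N + 1 ≤ 2 * N := by omega
  have hqK : 1 ≤ q * (K + 1) := Nat.one_le_iff_ne_zero.2 (Nat.mul_ne_zero hq.ne' (by omega))
  by_cases hsize : 2 * q * (24 * ((N + 1) * (N + 1) * (2 * K + 1) * d)) ≤ n ^ 4
  · have hNn : N + 1 ≤ n ^ 2 := by
      have h1 : (N + 1) ^ 2 ≤ (n ^ 2) ^ 2 := by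
        calc (N + 1) ^ 2 = 1 * (1 * ((N + 1) * (N + 1) * 1 * 1)) := by ring
          _ ≤ 2 * q * (24 * ((N + 1) * (N + 1) * (2 * K + 1) * d)) := by
              gcongr
              · omega
              · norm_num
              · omega
              · exact hdpos
          _ ≤ n ^ 4 := hsize
          _ = (n ^ 2) ^ 2 := by ring
      exact (Nat.pow_le_pow_iff_left (by norm_num)).1 h1
    have hk : N + 1 < 2 ^ (2 * L + 1) := by
      have h1 : n ≤ 2 ^ L := Nat.le_pow_clog (by norm_num) n
      have h2 : n ^ 2 ≤ 2 ^ (2 * L) := by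
        calc n ^ 2 ≤ (2 ^ L) ^ 2 := Nat.pow_le_pow_left h1 2
          _ = 2 ^ (2 * L) := by rw [← pow_mul, mul_comm]
      have h3 : 0 < 2 ^ (2 * L) := by positivity
      rw [pow_succ]
      omega
    have h := key n N d q K (2 * L) hq hqn hk hsize Ω p A hA
    have h4 : n ^ 2 ≤ 3600 * N * (d * L) ^ 2 := by
      calc n ^ 2 ≤ 25 * (n / 3) ^ 2 := hm
        _ ≤ 25 * (18 * (N + 1) * (d * (2 * L)) ^ 2) := Nat.mul_le_mul_left _ h
        _ ≤ 25 * (18 * (2 * N) * (d * (2 * L)) ^ 2) := by gcongr
        _ = 3600 * N * (d * L) ^ 2 := by ring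
    calc n ^ 4 = (n ^ 2) ^ 2 * 1 := by ring
      _ ≤ _ := Nat.mul_le_mul (Nat.pow_le_pow_left h4 2) hqK
  · push Not at hsize
    calc n ^ 4 ≤ 2 * q * (24 * ((N + 1) * (N + 1) * (2 * K + 1) * d)) := hsize.le
      _ ≤ 2 * q * (24 * ((2 * N) * (2 * N) * (2 * (K + 1)) * d)) := by
          gcongr
          omega
      _ = 384 * (N ^ 2 * d) * (q * (K + 1)) := by ring
      _ ≤ (3600 * N * (d * L) ^ 2) ^ 2 * (q * (K + 1)) := by
          refine Nat.mul_le_mul_right _ ?_
          have h5 : d ≤ (d * L) ^ 4 := by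
            calc d = d * 1 := by ring
              _ ≤ d * L := Nat.mul_le_mul_left _ hclog
              _ ≤ (d * L) ^ 4 := Nat.le_self_pow (by norm_num) _
          calc 384 * (N ^ 2 * d) ≤ 12960000 * (N ^ 2 * (d * L) ^ 4) := by gcongr; norm_num
            _ = (3600 * N * (d * L) ^ 2) ^ 2 := by ring

end Pool.Agent.Results.MP_8f87b2_lc.GenericRing
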